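import Pool.Agent.W833.BD.Decor

/-!
# The gradient field of stationary ballistic deposition need not decorrelate

For every `d ≥ 100000` there is a stationary law of ballistic deposition on `ℤ^d` seen from the
origin, which has integrable heights and is invariant under translations and under all symmetries
of the lattice, and whose gradient field does not decorrelate: along every direction `z` there are
infinitely many `k` for which the covariance of `φ (δg(0))` and `φ (δg(k z))` is at least `ε > 0`.
-/

namespace Pool.Agent.Results.MP_67d80e_pr.NoDecorrelation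

open MeasureTheory Filter Topology ProbabilityTheory Pool.Agent.W833.BD

theorem result : ∀ d : ℕ, 100000 ≤ d →
    ∃ (μ : Measure (Om d)) (φ : (Fin d → ℤ) → ℝ) (ε : ℝ),
      IsProbabilityMeasure μ ∧ Stationary μ ∧ (∀ᵐ g ∂μ, g 0 = 0) ∧
      (∀ x : V d, Integrable (fun g : Om d => (g x : ℝ)) μ) ∧
      (∀ z : V d, μ.map (fun g y => g (y + z) - g z) = μ) ∧
      (∀ (π : Equiv.Perm (Fin d)) (s : Fin d → ℤˣ),
        μ.map (fun g y => g (fun i => (s i : ℤ) * y (π i))) = μ) ∧
      (∃ C, ∀ v, |φ v| ≤ C) ∧ 0 < ε ∧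
      ∀ z : V d, ∃ k : ℕ → ℕ, StrictMono k ∧ ∀ n,
        ε ≤ cov[fun g => φ (grad g 0), fun g => φ (grad g (k n • z)); μ] := by
  intro d hd
  have : NeZero d := ⟨by omega⟩
  obtain ⟨ν, a, hν, ha, hmean⟩ := exists_nice hd
  obtain ⟨R, ε, hε, h⟩ := not_decorrelated hν ha hmean
  have hμ := hν.symm
  exact ⟨symm ν, phi R, ε, hμ.wstat.prob, hμ.wstat.stationary, hμ.wstat.zero, hμ.int, hμ.trans,
    fun π s => symm_map ν π s, ⟨R, abs_phi_le R⟩, hε, h⟩

end Pool.Agent.Results.MP_67d80e_pr.NoDecorrelation
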